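import Pool.Agent.H490R3.SP.Fin

set_option autoImplicit false

/-!
# Relative to a random oracle, neither `NP` nor `coNP` has the separation property
-/

namespace Pool.Agent.Results.MP_3b9c7a_lc.RandomOracle

open MeasureTheory Pool.Agent.H628R3.RO Pool.Agent.H490R3.LH Pool.Agent.H490R3.SP

/-- For almost every oracle `X`, relative to `X`: the polynomial hierarchy is infinite, `NP` does
not have the separation property, and `coNP` does not have the separation property. -/
theorem result : ∀ᵐ X ∂randomOracle,
    (∀ k, ∃ L, Sig X (k + 1) L ∧ ¬ Sig X k L) ∧ ¬ NPSep X ∧ ¬ CoNPSep X := by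
  filter_upwards [ph_infinite, np_sep, conp_sep] with X h0 h1 h2
  exact ⟨h0, h1, h2⟩

end Pool.Agent.Results.MP_3b9c7a_lc.RandomOracle
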